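import Pool.Agent.MVD.StmtsLoc
import Pool.Agent.Helper47_MVD.STF

/-!
Squad MVD, row SNG: a factor which occurs twice and contains a passive.
-/

set_option autoImplicit false

namespace Pool.Agent.MVD.H3

open Pool.Agent.Helper14_MV Pool.Agent.Helper2_MV Pool.Agent.MVD
open Pool.Agent.MVD.H47 (Bw_append Bw_cons Bw_congr count_Bw cut_eq)

theorem count_map {R : List ℕ} {B : ℕ → List ℕ} {z : ℕ} (hz : z % 3 ≠ 2) :
    (Bw R B).count z = (R.map fun r => (B r).count z).sum := by
  induction R with
  | nil => simp [Bw]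
  | cons r R ih =>
    rw [Bw_cons, List.count_append, List.count_cons, ih, List.map_cons, List.sum_cons]
    have h : ((3 * r + 2 == z) = true) = False := by
      have : 3 * r + 2 ≠ z := by omega
      simp [this]
    simp only [h, if_false]
    omega

theorem sum_two {R : List ℕ} (hn : R.Nodup) (f : ℕ → ℕ) {r s : ℕ} (hr : r ∈ R) (hs : s ∈ R)
    (hrs : r ≠ s) : f r + f s ≤ (R.map f).sum := by
  rw [← List.sum_toFinset f hn]
  have h3 : ∑ m ∈ ({r, s} : Finset ℕ), f m ≤ ∑ m ∈ R.toFinset, f m := by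
    apply Finset.sum_le_sum_of_subset
    intro m hm
    rw [Finset.mem_insert, Finset.mem_singleton] at hm
    rw [List.mem_toFinset]
    rcases hm with h | h <;> rw [h] <;> assumption
  rw [Finset.sum_pair hrs] at h3
  exact h3

theorem sum_three {R : List ℕ} (hn : R.Nodup) (f : ℕ → ℕ) {r s t : ℕ} (hr : r ∈ R) (hs : s ∈ R)
    (ht : t ∈ R) (hrs : r ≠ s) (hrt : r ≠ t) (hst : s ≠ t) : f r + f s + f t ≤ (R.map f).sum := by
  rw [← List.sum_toFinset f hn]
  have h3 : ∑ m ∈ ({r, s, t} : Finset ℕ), f m ≤ ∑ m ∈ R.toFinset, f m := by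
    apply Finset.sum_le_sum_of_subset
    intro m hm
    rw [Finset.mem_insert, Finset.mem_insert, Finset.mem_singleton] at hm
    rw [List.mem_toFinset]
    rcases hm with h | h | h <;> rw [h] <;> assumption
  rw [Finset.sum_insert (by simp [hrs, hrt]), Finset.sum_pair hst, ← add_assoc] at h3
  exact h3

theorem lab_nodup {P Q : List ℕ} (h : (P ++ Q).Nodup) : (lab P Q).Nodup := by
  unfold lab
  rw [List.nodup_append] at h ⊢
  obtain ⟨h1, h2, h3⟩ := h
  have inj : Function.Injective (fun e : ℕ => e + 1) := fun a b hab => by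
    simpa using hab
  refine ⟨h1.map inj, ?_, ?_⟩
  · rw [List.nodup_cons]
    refine ⟨?_, h2.map inj⟩
    intro hm
    obtain ⟨a, _, ha⟩ := List.mem_map.1 hm
    omega
  · intro a ha b hb hab
    obtain ⟨x, hx, hxa⟩ := List.mem_map.1 ha
    rcases List.mem_cons.1 hb with hb | hb
    · omega
    · obtain ⟨y, hy, hyb⟩ := List.mem_map.1 hb
      exact h3 x hx y hy (by omega)

theorem mem_lab {P Q : List ℕ} {i : ℕ} (h : i ∈ P ++ Q) : i + 1 ∈ lab P Q := by
  unfold lab
  rcases List.mem_append.1 h with h | h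
  · exact List.mem_append_left _ (List.mem_map.2 ⟨i, h, rfl⟩)
  · exact List.mem_append_right _ (List.mem_cons_of_mem _ (List.mem_map.2 ⟨i, h, rfl⟩))

theorem zero_lab (P Q : List ℕ) : 0 ∈ lab P Q := by
  unfold lab
  exact List.mem_append_right _ List.mem_cons_self

theorem sng (hFac : FacStmt) : SngStmt := by
  intro P Q B e i X1 F X2 X3 hnd hB he hi hz0 hzi hz2 hW hzF
  obtain ⟨R, hR⟩ : ∃ R, R = lab P Q := ⟨_, rfl⟩
  have hRn : R.Nodup := by rw [hR]; exact lab_nodup hnd
  have h0R : 0 ∈ R := by rw [hR]; exact zero_lab P Q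
  have hiR : i + 1 ∈ R := by rw [hR]; exact mem_lab hi
  rw [← hR] at hB hz2 hW
  obtain ⟨z, hz⟩ : ∃ z, z = 3 * i + 1 := ⟨_, rfl⟩
  rw [← hz] at hz0 hzi hz2 hzF
  have hz3 : z % 3 ≠ 2 := by omega
  -- no separators
  have hFs : SFr F := by
    intro c hc hc2
    have h1 : (Bw R B ++ e).count c ≤ 1 := by
      rw [List.count_append, List.count_eq_zero.2 (fun h => he c h hc2)]
      exact count_Bw hRn hB hc2
    rw [hW] at h1
    simp only [List.count_append] at h1
    have h2 : 0 < F.count c := List.count_pos_iff.2 hc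
    omega
  have hF0 : F ≠ [] := by
    intro h
    rw [h] at hzF
    exact absurd hzF (List.not_mem_nil)
  have hzc : F.count z = 1 := by
    have h1 := hz2
    rw [hW] at h1
    simp only [List.count_append] at h1
    have h2 : 0 < F.count z := List.count_pos_iff.2 hzF
    omega
  -- counts in the blocks
  have hmap := count_map (R := R) (B := B) hz3
  have h2 := sum_two hRn (fun r => (B r).count z) h0R hiR (by omega)
  have hez : e.count z = 0 := by
    rw [List.count_append] at hz2
    omega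
  have hoth : ∀ r ∈ R, z ∈ B r → r = 0 ∨ r = i + 1 := by
    intro r hr hzr
    by_contra hc
    rw [not_or] at hc
    have h3 := sum_three hRn (fun r => (B r).count z) h0R hiR hr (by omega)
      (fun h => hc.1 h.symm) (fun h => hc.2 h.symm)
    have h4 : 0 < (B r).count z := List.count_pos_iff.2 hzr
    rw [List.count_append] at hz2
    omega
  -- the extra block
  obtain ⟨t, ht⟩ := Infinite.exists_notMem_finset R.toFinset
  rw [List.mem_toFinset] at ht
  obtain ⟨B', hB'⟩ : ∃ B' : ℕ → List ℕ, B' = Function.update B t e := ⟨_, rfl⟩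
  have hB'1 : ∀ r, r ≠ t → B' r = B r := by
    intro r hr
    rw [hB', Function.update_of_ne hr]
  have hB'2 : B' t = e := by rw [hB', Function.update_self]
  have hsR : ∀ r ∈ R ++ [t], SFr (B' r) := by
    intro r hr
    rcases List.mem_append.1 hr with h | h
    · rw [hB'1 r (fun h1 => ht (h1 ▸ h))]
      exact hB r h
    · rw [List.mem_singleton.1 h, hB'2]
      exact he
  have hRt : (R ++ [t]).Nodup := by
    rw [List.nodup_append]
    refine ⟨hRn, List.nodup_singleton t, ?_⟩
    intro a ha b hb hab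
    rw [List.mem_singleton] at hb
    exact ht (hb ▸ hab ▸ ha)
  have hword : Bw (R ++ [t]) B' = Bw R B ++ e ++ [3 * t + 2] := by
    rw [Bw_append, Bw_congr (R := R) (B := B') (B' := B)
      (fun r hr => hB'1 r (fun h1 => ht (h1 ▸ hr))), Bw_cons, hB'2]
    simp [Bw]
  obtain ⟨R1, r, R2, a, c, e1, e2, e3, e4⟩ := hFac (R ++ [t]) B' X1 F
    (X2 ++ (F ++ X3) ++ [3 * t + 2]) hsR hFs hF0 (by
      rw [hword, hW]
      simp only [List.append_assoc])
  obtain ⟨R1', r', R2', a', c', e1', e2', e3', e4'⟩ := hFac (R ++ [t]) B' (X1 ++ (F ++ X2)) F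
    (X3 ++ [3 * t + 2]) hsR hFs hF0 (by
      rw [hword, hW]
      simp only [List.append_assoc])
  have hmem : ∀ s, (∃ S1 S2, R ++ [t] = S1 ++ s :: S2) → F ⊆ B' s → s ≠ t ∧ (s = 0 ∨ s = i + 1) := by
    rintro s ⟨S1, S2, hs⟩ hF
    have hs1 : s ∈ R ++ [t] := by
      rw [hs]
      exact List.mem_append_right _ List.mem_cons_self
    have hst : s ≠ t := by
      intro h1
      have := hF hzF
      rw [h1, hB'2] at this
      have h3 : 0 < e.count z := List.count_pos_iff.2 this
      omega
    refine ⟨hst, ?_⟩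
    rcases List.mem_append.1 hs1 with h | h
    · have := hF hzF
      rw [hB'1 s hst] at this
      exact hoth s h this
    · exact absurd (List.mem_singleton.1 h) hst
  have hF1 : F ⊆ B' r := by
    rw [e2]
    intro x hx
    exact List.mem_append_right _ (List.mem_append_left _ hx)
  have hF2 : F ⊆ B' r' := by
    rw [e2']
    intro x hx
    exact List.mem_append_right _ (List.mem_append_left _ hx)
  obtain ⟨m1, m2⟩ := hmem r ⟨R1, R2, e1⟩ hF1
  obtain ⟨m3, m4⟩ := hmem r' ⟨R1', R2', e1'⟩ hF2
  have hne : r ≠ r' := by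
    intro h
    subst h
    rw [e1] at e1' hRt
    obtain ⟨c1, _⟩ := cut_eq hRt e1'
    rw [← c1, e3, List.append_assoc] at e3'
    have e5 := List.append_cancel_left e3'
    rw [← e5] at e2'
    have h3 : 2 ≤ (B' r).count z := by
      rw [e2']
      simp only [List.count_append]
      omega
    rw [hB'1 r m1] at h3
    rcases m2 with h4 | h4
    · rw [h4] at h3
      omega
    · rw [h4] at h3
      omega
  intro x hx
  have g1 := hF1 hx
  have g2 := hF2 hx
  rw [hB'1 r m1] at g1
  rw [hB'1 r' m3] at g2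
  rcases m2 with h4 | h4 <;> rcases m4 with h5 | h5
  · exact absurd (h4.trans h5.symm) hne
  · rw [h4] at g1
    rw [h5] at g2
    exact ⟨g2, g1⟩
  · rw [h4] at g1
    rw [h5] at g2
    exact ⟨g1, g2⟩
  · exact absurd (h4.trans h5.symm) hne

end Pool.Agent.MVD.H3
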